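import Mathlib
import Pool.Agent.Hhelper45.BallEvasive

/-!
# A collapsible and evasive triangulated 4-ball with 13 vertices

All definitions are the standard ones: finite abstract simplicial complexes on the vertices
`0, …, n - 1` (vertices need not all be used), geometric realisation by barycentric coordinates,
elementary collapses, deletions, links, and the recursive definition of non-evasiveness.
The example is the suspension of a 3-ball with 11 vertices found by a random search.
-/

set_option autoImplicit false

namespace Pool.Agent.Results.MP_16c276_co.EvasiveBall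

/-- `K` is an abstract simplicial complex: a family of finite sets which contains the empty face
and is closed under passing to subsets. -/
def IsComplex {n : ℕ} (K : Finset (Finset (Fin n))) : Prop :=
  ∅ ∈ K ∧ ∀ σ ∈ K, ∀ τ : Finset (Fin n), τ ⊆ σ → τ ∈ K

/-- The geometric realisation: points given by barycentric coordinates supported on a face. -/
def realization {n : ℕ} (K : Finset (Finset (Fin n))) : Set (Fin n → ℝ) :=
  {x | (∀ i, 0 ≤ x i) ∧ ∑ i, x i = 1 ∧ ∃ σ ∈ K, ∀ i, i ∉ σ → x i = 0}

/-- `K` is a `d`-ball: its geometric realisation is homeomorphic to the closed unit ball of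
Euclidean `d`-space. -/
def IsBall (d : ℕ) {n : ℕ} (K : Finset (Finset (Fin n))) : Prop :=
  Nonempty (realization K ≃ₜ Metric.closedBall (0 : EuclideanSpace ℝ (Fin d)) 1)

/-- `L` arises from `K` by an elementary collapse: a nonempty face `σ` and the only face `τ` of `K`
which properly contains `σ` are removed. -/
def ElementaryCollapse {n : ℕ} (K L : Finset (Finset (Fin n))) : Prop :=
  ∃ σ ∈ K, ∃ τ ∈ K, σ.Nonempty ∧ σ ⊂ τ ∧ (∀ ρ ∈ K, σ ⊂ ρ → ρ = τ) ∧ L = (K.erase σ).erase τ

/-- `K` is collapsible: some finite sequence of elementary collapses reduces `K` to a single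
vertex. -/
def Collapsible {n : ℕ} (K : Finset (Finset (Fin n))) : Prop :=
  ∃ v : Fin n, Relation.ReflTransGen ElementaryCollapse K {∅, {v}}

/-- The deletion of `v`: the faces which do not contain `v`. -/
def deletion {n : ℕ} (K : Finset (Finset (Fin n))) (v : Fin n) : Finset (Finset (Fin n)) :=
  K.filter (fun σ => v ∉ σ)

/-- The link of `v`: the faces `σ` which do not contain `v` such that `σ ∪ {v}` is a face. -/
def link {n : ℕ} (K : Finset (Finset (Fin n))) (v : Fin n) : Finset (Finset (Fin n)) :=
  K.filter (fun σ => v ∉ σ ∧ insert v σ ∈ K)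

/-- Non-evasive complexes: a single vertex is non-evasive, and a complex with at least two vertices
is non-evasive if it has a vertex `v` whose link and deletion are both non-evasive. -/
inductive NonEvasive {n : ℕ} : Finset (Finset (Fin n)) → Prop
  | point (v : Fin n) : NonEvasive {∅, {v}}
  | step (K : Finset (Finset (Fin n))) (v w : Fin n) (hv : {v} ∈ K) (hw : {w} ∈ K) (hvw : v ≠ w)
      (hl : NonEvasive (link K v)) (hd : NonEvasive (deletion K v)) : NonEvasive K

theorem coll_of (K : Finset (Finset (Fin 13)))
    (h : ∀ S : Finset (Finset (Fin 13)) → Prop,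
        (∀ v : Fin 13, S {∅, {v}}) →
        (∀ L : Finset (Finset (Fin 13)), ∀ σ ∈ L, ∀ τ ∈ L, σ ⊂ τ →
          τ.card = σ.card + 1 →
          (∀ ρ ∈ L, σ ⊆ ρ → ρ = σ ∨ ρ = τ) →
          S ((L.erase σ).erase τ) → S L) → S K) : Collapsible K := by
  apply h Collapsible
  · intro v
    exact ⟨v, Relation.ReflTransGen.refl⟩
  · intro L σ hσ τ hτ hστ hc hu hS
    by_cases he : σ.Nonempty
    · obtain ⟨v, hv⟩ := hS
      refine ⟨v, Relation.ReflTransGen.head ?_ hv⟩
      refine ⟨σ, hσ, τ, hτ, he, hστ, ?_, rfl⟩
      intro ρ hρ hσρ
      rcases hu ρ hρ hσρ.1 with e | e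
      · exact absurd (e ▸ hσρ) (ssubset_irrefl _)
      · exact e
    · rw [Finset.not_nonempty_iff_eq_empty] at he
      subst he
      rw [Finset.card_empty, zero_add, Finset.card_eq_one] at hc
      obtain ⟨v, rfl⟩ := hc
      refine ⟨v, ?_⟩
      have e : L = {∅, {v}} := by
        ext ρ
        rw [Finset.mem_insert, Finset.mem_singleton]
        constructor
        · intro hρ
          exact hu ρ hρ (Finset.empty_subset _)
        · rintro (rfl | rfl)
          · exact hσ
          · exact hτ
      rw [e]

theorem not_nonEvasive_of (K : Finset (Finset (Fin 13)))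
    (h : ¬ (∀ S : Finset (Finset (Fin 13)) → Prop,
        (∀ v : Fin 13, S {∅, {v}}) →
        (∀ L : Finset (Finset (Fin 13)), ∀ v : Fin 13, {v} ∈ L →
          S (L.filter (fun σ => v ∉ σ)) →
          S (L.filter (fun σ => v ∉ σ ∧ insert v σ ∈ L)) → S L) → S K)) : ¬ NonEvasive K := by
  intro hK
  apply h
  clear h
  intro S hp hs
  induction hK with
  | point v => exact hp v
  | step L v w hv hw hvw hl hd ihl ihd => exact hs L v hv ihd ihl

/-- There is a simplicial complex with (at most) 13 vertices whose geometric realisation is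
homeomorphic to the closed 4-ball and which is collapsible and evasive. -/
theorem result : ∃ K : Finset (Finset (Fin 13)),
    IsComplex K ∧ IsBall 4 K ∧ Collapsible K ∧ ¬ NonEvasive K :=
  ⟨Hhelper45.K, ⟨Hhelper45.empty_mem_K, Hhelper45.K_closed⟩, Hhelper45.K_homeo,
    coll_of _ Hhelper45.K_coll, not_nonEvasive_of _ Hhelper45.K_evasive⟩

end Pool.Agent.Results.MP_16c276_co.EvasiveBall
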